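import Pool.Agent.H303R3.ET.Shift

set_option autoImplicit false

/-!
# Every arc carries energy, for sets of given growth
-/

open Polynomial Filter Topology MeasureTheory
open scoped ENNReal
open Pool.Agent.H303R3 Pool.Agent.H303R3.ET

namespace Pool.Agent.Q189.EA

/-- The upper bound for the generating function at one point, when the arc carries little energy. -/
theorem one_rc {k : ℕ} (hk : 2 ≤ k) (A : Set ℕ) {K : ℕ} (hK1 : 1 ≤ K)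
    (hK : ∀ n, Rn A (Mo (k := k)) n ≤ K) {g : ℂ[X]} (hg0 : g.coeff 0 = 1) {ζ : ℂ}
    {δ lam B r ε1 CB c N c0 : ℝ} (hlam : 0 ≤ lam) (hB : ∀ z : ℂ, ‖z‖ ≤ 1 → ‖g.eval z‖ ≤ B)
    (h0 : 0 ≤ r) (h1 : r < 1) (hg : ∀ u : ℂ, ‖u‖ = 1 → δ ≤ ‖u - ζ‖ → ‖g.eval (r * u)‖ ≤ lam)
    {D n₀ L V M Q m Y : ℕ} (hD : g.natDegree ≤ D) (hV : V = (K + 1) ^ n₀) (hM : M = 2 * V + 2)
    (hQ : Q = M.factorial) (hm : 0 < m) (hmN : (m : ℝ) = N) (hL : L = M + m * Q + 1)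
    (hY : Y = M + m * Q) (hq : 1 / 2 ≤ (r ^ 2) ^ (M + L))
    (hN0 : 0 < N) (hN : (k.factorial : ℝ) ^ 2 * (K : ℝ) ^ 2 * 16 ^ k ≤ c0 * N)
    (hε1 : ε1 = 1 / (64 * K ^ 2 * N)) (hCB0 : 0 ≤ CB) (hc : c = 1 / (128 * (CB + 1) * N))
    (hε : ∑ n ∈ Finset.Ico n₀ L, lam ^ (2 * (n / D)) ≤ ε1)
    (hCB : ∑ n ∈ Finset.Ico n₀ L, B ^ (2 * (n / D)) ≤ CB)
    (hf : 1 ≤ fr A (r ^ 2)) (hlow : c0 * (1 - r ^ 2)⁻¹ ≤ fr A (r ^ 2) ^ k)
    (hFs : k.factorial * (k.factorial * K * fr A (r ^ 2) ^ (k - 1)) ≤ c * (1 - r ^ 2)⁻¹)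
    (hYT : (Y : ℝ) ≤ (1 - r ^ 2)⁻¹ / (2 * N))
    (harc : ∫⁻ θ in Arc ζ δ, ‖ev (ind A) (circleMap 0 r θ)‖ₑ ^ (2 * k : ℝ) ∂mu ≤
      ENNReal.ofReal (c * (1 - r ^ 2)⁻¹)) :
    fr A (r ^ 2) ≤ (2 * k.factorial) ^ k := by
  obtain ⟨T, hT⟩ : ∃ T : ℝ, T = (1 - r ^ 2)⁻¹ := ⟨_, rfl⟩
  have hT0 : 0 < T := by
    have : (0 : ℝ) < 1 - r ^ 2 := by nlinarith
    rw [hT]; positivity
  have hkf : (1 : ℝ) ≤ k.factorial := by
    exact_mod_cast Nat.one_le_iff_ne_zero.2 (Nat.factorial_ne_zero k)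
  have hKr : (1 : ℝ) ≤ K := by exact_mod_cast hK1
  have hc0 : 0 < c := by rw [hc]; positivity
  rw [← hT] at hlow hFs hYT harc
  obtain ⟨cc, hcc⟩ : ∃ cc : ℕ → ℕ, cc = fun n => Rn A (Mo (k := k)) n := ⟨_, rfl⟩
  have hcK : ∀ n, cc n ≤ K := by rw [hcc]; exact hK
  have hER : ∫⁻ θ in Arc ζ δ, ‖ev (Sc cc) (circleMap 0 r θ)‖ₑ ^ (2 : ℝ) ∂mu ≤
      ENNReal.ofReal (2 * c * T) := by
    rw [hcc]
    refine (arcR A hK ζ δ h0 h1 hf).trans ?_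
    have e1 : 2 * c * T = c * T + c * T := by ring
    rw [e1, ENNReal.ofReal_add (by positivity) (by positivity)]
    exact add_le_add harc (ENNReal.ofReal_le_ofReal hFs)
  have hbad := bad_le hcK hlam hB h0 h1 hg (V := V) hM hq hε hCB (by positivity) hER
  rw [← hT] at hbad
  have hW : 16 * (ε1 * (K ^ 2 * T) + CB * (2 * c * T)) ≤ T / (2 * N) := by
    have e1 : 16 * (ε1 * (K ^ 2 * T)) = T / (4 * N) := by
      have hK0 : (K : ℝ) ≠ 0 := by linarith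
      rw [hε1, div_mul_eq_mul_div, mul_div_assoc', div_eq_div_iff (by positivity) (by positivity)]
      ring
    have e2 : 16 * (CB * (2 * c * T)) = (CB / (CB + 1)) * (T / (4 * N)) := by
      have h1 : CB + 1 ≠ 0 := by positivity
      have h2 : N ≠ 0 := hN0.ne'
      rw [hc]
      field_simp
      ring
    have e3 : CB / (CB + 1) ≤ 1 := by rw [div_le_one (by linarith)]; linarith
    have e4 : (CB / (CB + 1)) * (T / (4 * N)) ≤ 1 * (T / (4 * N)) := by gcongr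
    have e5 : T / (4 * N) + 1 * (T / (4 * N)) = T / (2 * N) := by field_simp; norm_num
    rw [mul_add, e1, e2]
    linarith
  have hbad2 := hbad.trans (ENNReal.ofReal_le_ofReal hW)
  have hdiff := diff_le hcK hg0 h0 h1 hD hV hQ hm hL hY (by positivity) hbad2
  have hdiff2 : ∫⁻ θ, ‖ev (((1 - Bp Q m : ℂ[X]) : PowerSeries ℂ) * Sc cc) (circleMap 0 r θ)‖ₑ ^ (2 : ℝ) ∂mu ≤
      ENNReal.ofReal (K ^ 2 * T / N) := by
    refine hdiff.trans (ENNReal.ofReal_le_ofReal ?_)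
    have e1 : (K : ℝ) ^ 2 * T / N = K ^ 2 * (T / (2 * N) + T / (2 * N)) := by field_simp; norm_num
    rw [e1]
    gcongr
  have hBl := Bp_l2 (Q := Q) (m := m) (by rw [hQ]; exact Nat.factorial_pos M) hm h0 h1
  have hR := lint_Sc hcK h0 h1
  rw [T_eq h0 h1, ← hT] at hR
  have hR2 : ∫⁻ θ, ‖ev (Sc cc) (circleMap 0 r θ)‖ₑ ^ (2 : ℝ) ∂mu ≤ ENNReal.ofReal (K ^ 2 * T) := by
    refine hR.trans (le_of_eq ?_)
    rw [ENNReal.ofReal_mul (by positivity), ENNReal.ofReal_pow (by positivity), ENNReal.ofReal_natCast]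
  have hB2 : ∫⁻ θ, ‖(Bp Q m).eval (circleMap 0 r θ)‖ₑ ^ (2 : ℝ) ∂mu ≤ ENNReal.ofReal (1 / N) := by
    refine hBl.trans (le_of_eq ?_)
    rw [one_div, ENNReal.ofReal_inv_of_pos hN0, ← hmN, ENNReal.ofReal_natCast]
  have hen := energy hk A hK h0 h1 hf (Bp Q m)
  rw [← hcc] at hen
  have hk0 : (0 : ℝ) < k := by exact_mod_cast (by omega : 0 < k)
  have h1k : (0 : ℝ) ≤ 1 / k := by positivity
  have hk2 : (2 : ℝ) ≤ k := by exact_mod_cast hk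
  have hfin : ENNReal.ofReal (fr A (r ^ 2)) ≤ ENNReal.ofReal
      ((k.factorial : ℝ) ^ (2 / k : ℝ) * (K ^ 2 * T / N) ^ (1 / k : ℝ) +
        (k.factorial : ℝ) ^ (2 / k : ℝ) * ((1 / N) ^ (1 / k : ℝ) * (K ^ 2 * T) ^ (1 / k : ℝ)) +
        k.factorial * fr A (r ^ 2) ^ (((k : ℝ) - 1) / k)) := by
    rw [ENNReal.ofReal_add (by positivity) (by positivity),
      ENNReal.ofReal_add (by positivity) (by positivity), ENNReal.ofReal_mul (by positivity),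
      ENNReal.ofReal_mul (by positivity), ENNReal.ofReal_mul (by positivity),
      ENNReal.ofReal_mul (by positivity),
      ← ENNReal.ofReal_rpow_of_nonneg (by positivity) (by positivity),
      ← ENNReal.ofReal_rpow_of_nonneg (x := (K : ℝ) ^ 2 * T / N) (by positivity) h1k,
      ← ENNReal.ofReal_rpow_of_nonneg (x := 1 / N) (by positivity) h1k,
      ← ENNReal.ofReal_rpow_of_nonneg (x := (K : ℝ) ^ 2 * T) (by positivity) h1k,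
      ← ENNReal.ofReal_rpow_of_nonneg (x := fr A (r ^ 2)) (by linarith)
        (div_nonneg (by linarith) hk0.le), ENNReal.ofReal_natCast]
    refine hen.trans ?_
    gcongr
  rw [ENNReal.ofReal_le_ofReal_iff (by positivity)] at hfin
  exact fin_real' hk hkf (by linarith) hN0 hN hT0 hf hlow hfin

/-- Every arc carries energy. -/
theorem main_arc_c {k : ℕ} (hk : 2 ≤ k) {K : ℕ} (hK1 : 1 ≤ K) {c0 : ℝ} (hc0 : 0 < c0) {ζ : ℂ}
    (hζ : ‖ζ‖ = 1) {δ : ℝ}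
    (hδ : 0 < δ) : ∃ c : ℝ, 0 < c ∧ ∀ᶠ r : ℝ in 𝓝[<] 1, ∀ A : Set ℕ,
      (∀ n, Rn A (Mo (k := k)) n ≤ K) → c0 * (1 - r ^ 2)⁻¹ ≤ fr A (r ^ 2) ^ k →
        ENNReal.ofReal (c * (1 - r ^ 2)⁻¹) ≤
          ∫⁻ θ in Arc ζ δ, ‖ev (ind A) (circleMap 0 r θ)‖ₑ ^ (2 * k : ℝ) ∂mu := by
  obtain ⟨g, lam, ρ1, hg0, hl0, hl1, hρ0, hρ1, hg⟩ := exists_g hζ hδ
  obtain ⟨B, hB⟩ := (isCompact_closedBall (0 : ℂ) 1).exists_bound_of_continuousOn
    (f := fun z => g.eval z) g.continuous.continuousOn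
  have hB' : ∀ z : ℂ, ‖z‖ ≤ 1 → ‖g.eval z‖ ≤ B := fun z hz => hB z (by simpa using hz)
  have hB0 : 0 ≤ B := (norm_nonneg _).trans (hB' 0 (by simp))
  obtain ⟨D, hDd⟩ : ∃ D : ℕ, D = g.natDegree + 1 := ⟨_, rfl⟩
  obtain ⟨m, hmd⟩ : ∃ m : ℕ, m = ⌈(k.factorial : ℝ) ^ 2 * (K : ℝ) ^ 2 * 16 ^ k / c0⌉₊ + 1 := ⟨_, rfl⟩
  obtain ⟨N, hNm⟩ : ∃ N : ℝ, N = (m : ℝ) := ⟨_, rfl⟩
  have hkf0 := Nat.factorial_pos k
  have hm0 : 0 < m := by rw [hmd]; positivity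
  have hmN : (m : ℝ) = N := hNm.symm
  have hN : (k.factorial : ℝ) ^ 2 * (K : ℝ) ^ 2 * 16 ^ k ≤ c0 * N := by
    have h1 : (k.factorial : ℝ) ^ 2 * (K : ℝ) ^ 2 * 16 ^ k / c0 ≤ N := by
      rw [hNm, hmd]
      push_cast
      exact (Nat.le_ceil _).trans (by linarith)
    rw [div_le_iff₀ hc0] at h1
    linarith
  have hKr : (0 : ℝ) < K := by exact_mod_cast hK1
  have hN0 : 0 < N := by rw [← hmN]; exact_mod_cast hm0
  obtain ⟨ε1, hε1⟩ : ∃ ε1 : ℝ, ε1 = 1 / (64 * K ^ 2 * N) := ⟨_, rfl⟩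
  obtain ⟨j, hj⟩ := tail hl0 hl1 (D := D) (by omega) (ε := ε1) (by rw [hε1]; positivity)
  obtain ⟨V, hV⟩ : ∃ V : ℕ, V = (K + 1) ^ (j * D) := ⟨_, rfl⟩
  obtain ⟨M, hM⟩ : ∃ M : ℕ, M = 2 * V + 2 := ⟨_, rfl⟩
  obtain ⟨Q, hQ⟩ : ∃ Q : ℕ, Q = M.factorial := ⟨_, rfl⟩
  obtain ⟨L, hL⟩ : ∃ L : ℕ, L = M + m * Q + 1 := ⟨_, rfl⟩
  obtain ⟨Y, hY⟩ : ∃ Y : ℕ, Y = M + m * Q := ⟨_, rfl⟩
  obtain ⟨CB, hCB⟩ : ∃ CB : ℝ, CB = ∑ n ∈ Finset.Ico (j * D) L, B ^ (2 * (n / D)) := ⟨_, rfl⟩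
  have hCB0 : 0 ≤ CB := by rw [hCB]; exact Finset.sum_nonneg fun n _ => by positivity
  obtain ⟨c, hc⟩ : ∃ c : ℝ, c = 1 / (128 * (CB + 1) * N) := ⟨_, rfl⟩
  have hcp : 0 < c := by rw [hc]; positivity
  refine ⟨c, hcp, ?_⟩
  -- the size needed
  obtain ⟨F1, hF1⟩ : ∃ F1 : ℝ, F1 = 1 + (2 * (k.factorial : ℝ)) ^ k + (k.factorial : ℝ) ^ 3 * K ^ 2 / c :=
    ⟨_, rfl⟩
  have hF0 : 0 < F1 := by rw [hF1]; positivity
  have hsq : Tendsto (fun r : ℝ => r ^ 2) (𝓝[<] 1) (𝓝 1) := by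
    have : Tendsto (fun r : ℝ => r ^ 2) (𝓝 1) (𝓝 (1 ^ 2)) := (continuous_pow 2).tendsto 1
    rw [one_pow] at this
    exact this.mono_left nhdsWithin_le_nhds
  have hpow : ∀ a : ℕ, ∀ᶠ r : ℝ in 𝓝[<] 1, 1 / 2 ≤ (r ^ 2) ^ a := by
    intro a
    have h2 : Tendsto (fun r : ℝ => (r ^ 2) ^ a) (𝓝[<] 1) (𝓝 (1 ^ a)) := hsq.pow a
    rw [one_pow] at h2
    exact (h2.eventually (lt_mem_nhds (show (1 / 2 : ℝ) < 1 by norm_num))).mono fun _ h => h.le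
  have hT : Tendsto (fun r : ℝ => (1 - r ^ 2)⁻¹) (𝓝[<] 1) atTop := by
    apply tendsto_inv_nhdsGT_zero.comp
    apply tendsto_nhdsWithin_of_tendsto_nhds_of_eventually_within
    · have := (tendsto_const_nhds (x := (1 : ℝ))).sub hsq
      rw [sub_self] at this
      exact this
    · filter_upwards [self_mem_nhdsWithin, Ioo_mem_nhdsLT (show (0 : ℝ) < 1 by norm_num)] with r h1 h2
      show (0 : ℝ) < 1 - r ^ 2
      have := h2.1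
      have := h2.2
      nlinarith
  filter_upwards [Ioo_mem_nhdsLT hρ1, hpow (M + L),
    hT.eventually_ge_atTop (F1 ^ k / c0), hT.eventually_ge_atTop (Y * (2 * N))] with r hr1 hr2 hr4 hr5
  intro A hK hlow
  obtain ⟨hr1a, h1⟩ := hr1
  have h0 : 0 ≤ r := hρ0.trans hr1a.le
  by_contra hcon
  push Not at hcon
  have hq1 : r ^ 2 < 1 := by nlinarith
  have hT0 : (0 : ℝ) < (1 - r ^ 2)⁻¹ := by
    have : (0 : ℝ) < 1 - r ^ 2 := by linarith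
    positivity
  have hfr0 := fr_nonneg A (q := r ^ 2) (by positivity)
  have hF : F1 ≤ fr A (r ^ 2) := by
    have : F1 ^ k ≤ fr A (r ^ 2) ^ k := by
      rw [div_le_iff₀ hc0] at hr4
      linarith
    exact le_of_pow_le_pow_left₀ (by omega) hfr0 this
  have hf1 : 1 ≤ fr A (r ^ 2) := by
    refine le_trans ?_ hF
    have h3 : 0 ≤ (2 * (k.factorial : ℝ)) ^ k := by positivity
    have h4 : 0 ≤ (k.factorial : ℝ) ^ 3 * K ^ 2 / c := by positivity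
    rw [hF1]; linarith
  have hup := fr_upper (k := k) A hK (q := r ^ 2) (by positivity) hq1
  have hFs : k.factorial * (k.factorial * K * fr A (r ^ 2) ^ (k - 1)) ≤ c * (1 - r ^ 2)⁻¹ := by
    have h3 : (k.factorial : ℝ) ^ 3 * K ^ 2 / c ≤ fr A (r ^ 2) := by
      have h3 : 0 ≤ (2 * (k.factorial : ℝ)) ^ k := by positivity
      rw [hF1] at hF; linarith
    rw [div_le_iff₀ hcp] at h3
    have h4 : fr A (r ^ 2) ^ k = fr A (r ^ 2) ^ (k - 1) * fr A (r ^ 2) := by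
      rw [← pow_succ]; congr 1; omega
    rw [h4] at hup
    have hP0 : 0 ≤ fr A (r ^ 2) ^ (k - 1) := by positivity
    have hfpos : 0 < fr A (r ^ 2) := by linarith
    have h5 : (k.factorial * (k.factorial * K * fr A (r ^ 2) ^ (k - 1))) * fr A (r ^ 2) ≤
        (c * (1 - r ^ 2)⁻¹) * fr A (r ^ 2) := by
      calc (k.factorial * (k.factorial * K * fr A (r ^ 2) ^ (k - 1))) * fr A (r ^ 2)
          = (k.factorial * k.factorial * K : ℝ) * (fr A (r ^ 2) ^ (k - 1) * fr A (r ^ 2)) := by ring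
        _ ≤ (k.factorial * k.factorial * K : ℝ) * (k.factorial * K * (1 - r ^ 2)⁻¹) := by gcongr
        _ = ((k.factorial : ℝ) ^ 3 * K ^ 2) * (1 - r ^ 2)⁻¹ := by ring
        _ ≤ (fr A (r ^ 2) * c) * (1 - r ^ 2)⁻¹ := by gcongr
        _ = _ := by ring
    exact le_of_mul_le_mul_right h5 hfpos
  have hYT : (Y : ℝ) ≤ (1 - r ^ 2)⁻¹ / (2 * N) := by
    rw [le_div_iff₀ (by positivity)]; exact hr5
  have hres := one_rc hk A hK1 hK hg0 (ζ := ζ) (δ := δ) (N := N) (c := c) (CB := CB) (ε1 := ε1) hl0 hB'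
    h0 h1 (fun u hu1 hu2 => hg r u hr1a.le h1.le hu1 hu2) (D := D) (n₀ := j * D) (L := L) (V := V)
    (M := M) (Q := Q) (m := m) (Y := Y) (c0 := c0) (by omega) hV hM hQ hm0 hmN hL hY hr2 hN0 hN hε1 hCB0 hc (hj L)
    (le_of_eq hCB.symm) hf1 hlow hFs hYT hcon.le
  have h6 : 0 ≤ (k.factorial : ℝ) ^ 3 * K ^ 2 / c := by positivity
  rw [hF1] at hF
  linarith

end Pool.Agent.Q189.EA
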