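import Pool.Agent.Q189.EA.Arc
import Pool.Agent.H303R3.ET.ArcInt
import Pool.Agent.H303R3.ET.ShiftFin

set_option autoImplicit false

/-!
# Every arc carries energy, for sets of given growth: the final form
-/

open Filter Topology MeasureTheory
open scoped ENNReal
open Pool.Agent.H303R3 Pool.Agent.H303R3.ET

namespace Pool.Agent.Q189.EA

theorem arcs_c {k : ℕ} (hk : 2 ≤ k) (K : ℕ) {c0 : ℝ} (hc0 : 0 < c0) {α β : ℝ} (hab : α < β) :
    ∃ c : ℝ, 0 < c ∧ ∃ ρ₀ : ℝ, 0 ≤ ρ₀ ∧ ρ₀ < 1 ∧ ∀ A : Set ℕ, (∀ n, Rn A (Mo (k := k)) n ≤ K) →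
      ∀ ρ : ℝ, ρ₀ < ρ → ρ < 1 → c0 * (1 - ρ ^ 2)⁻¹ ≤ fr A (ρ ^ 2) ^ k →
        c ≤ (1 - ρ) * ∫ θ in α..β, ‖GF A (circleMap 0 ρ θ)‖ ^ (2 * k) := by
  obtain ⟨ζ, δ, hζ, hδ, harc⟩ := arcint hab
  obtain ⟨c, hc, hev⟩ := main_arc_c hk (K := K + 1) (by omega) hc0 hζ hδ
  rw [eventually_iff, mem_nhdsLT_iff_exists_Ioo_subset' (show (0 : ℝ) < 1 by norm_num)] at hev
  obtain ⟨ρ₀, hρ₀, hsub⟩ := hev
  refine ⟨c / 2, by positivity, max ρ₀ 0, le_max_right _ _, max_lt hρ₀ one_pos,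
    fun A hK ρ hρ hρ1 hlow => ?_⟩
  have h0 : 0 < ρ := (le_max_right _ _).trans_lt hρ
  have hρ' : ρ₀ < ρ := (le_max_left _ _).trans_lt hρ
  have h1 : ENNReal.ofReal (c * (1 - ρ ^ 2)⁻¹) ≤
      ∫⁻ θ in Arc ζ δ, ‖ev (ind A) (circleMap 0 ρ θ)‖ₑ ^ (2 * k : ℝ) ∂mu :=
    hsub ⟨hρ', hρ1⟩ A (fun n => (hK n).trans (by omega)) hlow
  have hcont : Continuous fun θ : ℝ => ‖GF A (circleMap 0 ρ θ)‖ ^ (2 * k) := by
    simp_rw [GF_eq]
    exact (ev_cont (conv_ind A) h0.le hρ1).norm.pow _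
  have h2 := harc (fun θ => ‖GF A (circleMap 0 ρ θ)‖ ^ (2 * k)) hcont (fun θ => by positivity)
    (fun θ => by simp only [periodic_circleMap 0 ρ θ])
  have h3 : ∀ θ : ℝ, ‖ev (ind A) (circleMap 0 ρ θ)‖ₑ ^ (2 * k : ℝ) =
      ENNReal.ofReal (‖GF A (circleMap 0 ρ θ)‖ ^ (2 * k)) := by
    intro θ
    rw [GF_eq, ← ofReal_norm, ENNReal.ofReal_rpow_of_nonneg (norm_nonneg _) (by positivity)]
    congr 1
    rw [← Real.rpow_natCast]
    congr 1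
    push_cast
    ring
  simp_rw [h3] at h1
  have h4 := h1.trans h2
  have h5 : 0 ≤ ∫ θ in α..β, ‖GF A (circleMap 0 ρ θ)‖ ^ (2 * k) :=
    intervalIntegral.integral_nonneg hab.le fun θ _ => by positivity
  rw [ENNReal.ofReal_le_ofReal_iff (by positivity)] at h4
  have hq : 0 < 1 - ρ ^ 2 := by nlinarith
  have hpi : (1 : ℝ) ≤ 2 * Real.pi := by linarith [Real.pi_gt_three]
  have h6 : (2 * Real.pi)⁻¹ ≤ 1 := inv_le_one_of_one_le₀ hpi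
  have h7 : c * (1 - ρ ^ 2)⁻¹ ≤ ∫ θ in α..β, ‖GF A (circleMap 0 ρ θ)‖ ^ (2 * k) := by
    refine h4.trans ?_
    calc (2 * Real.pi)⁻¹ * ∫ θ in α..β, ‖GF A (circleMap 0 ρ θ)‖ ^ (2 * k) ≤
        1 * ∫ θ in α..β, ‖GF A (circleMap 0 ρ θ)‖ ^ (2 * k) := by gcongr
      _ = _ := one_mul _
  have h8 : c ≤ (1 - ρ ^ 2) * ∫ θ in α..β, ‖GF A (circleMap 0 ρ θ)‖ ^ (2 * k) := by
    have h9 := mul_le_mul_of_nonneg_left h7 hq.le
    have h10 : (1 - ρ ^ 2) * (c * (1 - ρ ^ 2)⁻¹) = c := by field_simp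
    linarith
  have h9 : (1 - ρ ^ 2) * ∫ θ in α..β, ‖GF A (circleMap 0 ρ θ)‖ ^ (2 * k) ≤
      2 * ((1 - ρ) * ∫ θ in α..β, ‖GF A (circleMap 0 ρ θ)‖ ^ (2 * k)) := by
    have h10 : (1 - ρ ^ 2) ≤ 2 * (1 - ρ) := by nlinarith
    calc _ ≤ (2 * (1 - ρ)) * ∫ θ in α..β, ‖GF A (circleMap 0 ρ θ)‖ ^ (2 * k) := by gcongr
      _ = _ := by ring
  linarith

theorem Rn_le_rep (A : Set ℕ) (n : ℕ) : Rn A (Mo (k := 2)) n ≤ rep A n := by
  classical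
  rw [← Rn_true]
  unfold Rn
  apply Finset.card_le_card
  intro a ha
  rw [Finset.mem_filter] at ha ⊢
  exact ⟨ha.1, trivial⟩

/-- many elements below `N` make the generating function large -/
theorem fr_ge_count {A : Set ℕ} {κ : ℝ} (hκ : 0 < κ) {N : ℕ} (hN : 2 ≤ N)
    (h : κ * Real.sqrt N ≤ ((A ∩ Set.Iio N).ncard : ℝ)) :
    κ ^ 2 / 256 * (1 - (1 - 1 / (N : ℝ)) ^ 2)⁻¹ ≤ fr A ((1 - 1 / (N : ℝ)) ^ 2) ^ 2 := by
  classical
  have hNr : (2 : ℝ) ≤ N := by exact_mod_cast hN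
  have hN0 : (0 : ℝ) < N := by linarith
  obtain ⟨ρ, hρ⟩ : ∃ ρ : ℝ, ρ = 1 - 1 / (N : ℝ) := ⟨_, rfl⟩
  rw [← hρ]
  have h1N : 1 / (N : ℝ) ≤ 1 / 2 := one_div_le_one_div_of_le (by norm_num) hNr
  have h1N0 : 0 < 1 / (N : ℝ) := by positivity
  have hρ0 : 1 / 2 ≤ ρ := by rw [hρ]; linarith
  have hρ1 : ρ < 1 := by rw [hρ]; linarith
  have hN1 : (1 - ρ) * N = 1 := by rw [hρ]; field_simp; ring
  -- `ρ ^ N ≥ 1 / 4`
  have hpow : 1 / 4 ≤ ρ ^ N := by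
    have hlog : -(2 * Real.log 2) * (1 - ρ) ≤ Real.log ρ := by
      -- concavity of the logarithm on `[1/2, 1]`
      have hc := strictConcaveOn_log_Ioi.concaveOn
      have h2 : (0 : ℝ) ≤ 2 * (1 - ρ) := by linarith
      have h3 : (0 : ℝ) ≤ 2 * ρ - 1 := by linarith
      have h4 := hc.2 (show (1 / 2 : ℝ) ∈ Set.Ioi 0 by norm_num) (show (1 : ℝ) ∈ Set.Ioi 0 by norm_num)
        h2 h3 (by ring)
      simp only [smul_eq_mul, Real.log_one, mul_zero, add_zero, mul_one] at h4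
      have h5 : 2 * (1 - ρ) * (1 / 2) + (2 * ρ - 1) = ρ := by ring
      rw [h5, one_div, Real.log_inv] at h4
      linarith
    have h2 : Real.log (1 / 4) ≤ Real.log (ρ ^ N) := by
      rw [Real.log_pow]
      have h3 : (N : ℝ) * (-(2 * Real.log 2) * (1 - ρ)) ≤ N * Real.log ρ := by gcongr
      have h4 : (N : ℝ) * (-(2 * Real.log 2) * (1 - ρ)) = -(2 * Real.log 2) := by
        calc _ = -(2 * Real.log 2) * ((1 - ρ) * N) := by ring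
          _ = _ := by rw [hN1, mul_one]
      have h5 : Real.log (1 / 4) = -(2 * Real.log 2) := by
        rw [one_div, Real.log_inv]
        have : (4 : ℝ) = 2 ^ 2 := by norm_num
        rw [this, Real.log_pow]
        push_cast
        ring
      rw [h5]; linarith
    exact (Real.log_le_log_iff (by norm_num) (by positivity)).mp h2
  have hq0 : 0 ≤ ρ ^ 2 := by positivity
  have hq1 : ρ ^ 2 < 1 := by nlinarith
  -- the sum over the elements below `N`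
  obtain ⟨S, hS⟩ : ∃ S : Finset ℕ, S = {n ∈ Finset.range N | n ∈ A} := ⟨_, rfl⟩
  have hcard : (A ∩ Set.Iio N).ncard = S.card := by
    rw [← Set.ncard_coe_finset, hS]
    congr 1
    ext n
    simp only [Set.mem_inter_iff, Set.mem_Iio, Finset.coe_filter, Finset.mem_range, Set.mem_ofPred_eq]
    tauto
  have hfr : (S.card : ℝ) / 16 ≤ fr A (ρ ^ 2) := by
    unfold fr
    calc (S.card : ℝ) / 16 = ∑ n ∈ S, (1 / 16 : ℝ) := by
          rw [Finset.sum_const, nsmul_eq_mul]; ring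
      _ ≤ ∑ n ∈ S, (if n ∈ A then (1 : ℝ) else 0) * (ρ ^ 2) ^ n := by
          apply Finset.sum_le_sum
          intro n hn
          rw [hS, Finset.mem_filter, Finset.mem_range] at hn
          rw [if_pos hn.2, one_mul, ← pow_mul, mul_comm, pow_mul]
          have h1 : ρ ^ N ≤ ρ ^ n := pow_le_pow_of_le_one (by linarith) hρ1.le hn.1.le
          have h2 : 1 / 4 ≤ ρ ^ n := hpow.trans h1
          calc (1 / 16 : ℝ) = (1 / 4) ^ 2 := by norm_num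
            _ ≤ (ρ ^ n) ^ 2 := by gcongr
      _ ≤ ∑' n, (if n ∈ A then (1 : ℝ) else 0) * (ρ ^ 2) ^ n :=
          (summable_fr A hq0 hq1).sum_le_tsum _ (fun n _ => by positivity)
  rw [hcard] at h
  have hfr2 : κ * Real.sqrt N / 16 ≤ fr A (ρ ^ 2) := by linarith
  have hT : (1 - ρ ^ 2)⁻¹ ≤ (N : ℝ) := by
    rw [inv_le_comm₀ (by linarith) hN0]
    have : (N : ℝ)⁻¹ = 1 - ρ := by rw [hρ]; ring
    rw [this]
    nlinarith
  calc κ ^ 2 / 256 * (1 - ρ ^ 2)⁻¹ ≤ κ ^ 2 / 256 * N := by gcongr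
    _ = (κ * Real.sqrt N / 16) ^ 2 := by
        rw [div_pow, mul_pow, Real.sq_sqrt hN0.le]; ring
    _ ≤ fr A (ρ ^ 2) ^ 2 := by gcongr

end Pool.Agent.Q189.EA
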